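import Mathlib
import Pool.Agent.Lib.MP_bb4e29_gt.Cl.Defs
import Pool.Agent.Lib.MP_bb4e29_gt.Cl.Main

open Pool.Agent.Lib.MP_bb4e29_gt

/-- A smooth hypersurface of `ℂH^n` with exactly three principal curvatures at each point is Hopf
with `a^2 + 4c = 0` if and only if it is locally an envelope of horospheres along a regular
Legendrian curve of the sphere at infinity. -/
theorem Pool.Agent.Results.MP_bb4e29_gt.Classification.result (n : ℕ) (hn : 2 ≤ n)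
    (E : Type) [NormedAddCommGroup E] [InnerProductSpace ℂ E] [FiniteDimensional ℂ E]
    (hE : Module.finrank ℂ E = n) (r : ℝ) (hr : 0 < r) (U : Set (Fin (2 * n - 1) → ℝ))
    (Φ ξ : (Fin (2 * n - 1) → ℝ) → E)
    (A : (Fin (2 * n - 1) → ℝ) → (Fin (2 * n - 1) → ℝ) →ₗ[ℝ] (Fin (2 * n - 1) → ℝ))
    (W : (Fin (2 * n - 1) → ℝ) → (Fin (2 * n - 1) → ℝ)) (h : IsPiece r U Φ ξ A W)
    (h3 : ∀ u ∈ U, {l : ℝ | Module.End.HasEigenvalue (A u) l}.ncard = 3) :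
    (∀ u ∈ U, ∃ a : ℝ, A u (W u) = a • W u ∧ a ^ 2 + 4 * (-1 / r ^ 2) = 0) ↔
      ∀ u ∈ U, ∃ V, IsOpen V ∧ u ∈ V ∧ V ⊆ U ∧ IsEnvelope V Φ := by
  have hd : Module.finrank ℝ (Fin (2 * n - 1) → ℝ) + 1 = 2 * Module.finrank ℂ E := by
    rw [Module.finrank_fin_fun, hE]
    omega
  exact ⟨fun h2 u hu => (h.classify hr.ne' hd h2 h3 hu).2, fun k u hu =>
    let ⟨_, a1, a2, a3, a4⟩ := k u hu
    (h.mono a1 a3).conv hr.ne' hd a4 u a2⟩

/-- In that case the principal curvature `a / 2` has multiplicity `2 n - 3` at each point, so the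
other two are simple. -/
theorem Pool.Agent.Results.MP_bb4e29_gt.Classification.mult (n : ℕ) (hn : 2 ≤ n)
    (E : Type) [NormedAddCommGroup E] [InnerProductSpace ℂ E] [FiniteDimensional ℂ E]
    (hE : Module.finrank ℂ E = n) (r : ℝ) (hr : 0 < r) (U : Set (Fin (2 * n - 1) → ℝ))
    (Φ ξ : (Fin (2 * n - 1) → ℝ) → E)
    (A : (Fin (2 * n - 1) → ℝ) → (Fin (2 * n - 1) → ℝ) →ₗ[ℝ] (Fin (2 * n - 1) → ℝ))
    (W : (Fin (2 * n - 1) → ℝ) → (Fin (2 * n - 1) → ℝ)) (h : IsPiece r U Φ ξ A W)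
    (h3 : ∀ u ∈ U, {l : ℝ | Module.End.HasEigenvalue (A u) l}.ncard = 3)
    (h2 : ∀ u ∈ U, ∃ a : ℝ, A u (W u) = a • W u ∧ a ^ 2 + 4 * (-1 / r ^ 2) = 0) :
    ∀ u ∈ U, ∀ a : ℝ, A u (W u) = a • W u →
      Module.finrank ℝ (Module.End.eigenspace (A u) (a / 2)) = 2 * n - 3 := fun u hu a ha => by
  have hd : Module.finrank ℝ (Fin (2 * n - 1) → ℝ) + 1 = 2 * Module.finrank ℂ E := by
    rw [Module.finrank_fin_fun, hE]
    omega
  have := (h.classify hr.ne' hd h2 h3 hu).1 a ha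
  rw [Module.finrank_fin_fun] at this
  omega
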