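import Mathlib
import Pool.Agent.Lib.MP_bb4e29_gt.Defs
import Pool.Agent.Lib.MP_bb4e29_gt.Transfer

open Pool.Agent.Lib.MP_bb4e29_gt

/-- For every `n ≥ 3` and `c = -1/r^2 < 0` there is an embedded Hopf hypersurface of `ℂH^n` with
`a^2 + 4c = 0` and exactly three distinct principal curvatures at each point, non-constant on
every open piece, that is contained in no member of Montiel's list. -/
theorem Pool.Agent.Results.MP_bb4e29_gt.Counterexample.result (n : ℕ) (hn : 3 ≤ n)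
    (E : Type) [NormedAddCommGroup E] [InnerProductSpace ℂ E] [FiniteDimensional ℂ E]
    (hE : Module.finrank ℂ E = n) (r : ℝ) (hr : 0 < r) :
    ∃ (Φ ξ : (Fin (2 * n - 1) → ℝ) → E)
      (A : (Fin (2 * n - 1) → ℝ) → (Fin (2 * n - 1) → ℝ) →ₗ[ℝ] (Fin (2 * n - 1) → ℝ))
      (W : (Fin (2 * n - 1) → ℝ) → (Fin (2 * n - 1) → ℝ)) (a : ℝ),
      IsHypersurface r Φ ξ A W ∧ (∀ u, A u (W u) = a • W u) ∧ a ^ 2 + 4 * (-1 / r ^ 2) = 0 ∧
      (∀ u, {l : ℝ | Module.End.HasEigenvalue (A u) l}.ncard = 3) ∧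
      (∀ U, IsOpen U → U.Nonempty → ∃ u ∈ U, ∃ v ∈ U,
        {l : ℝ | Module.End.HasEigenvalue (A u) l} ≠ {l : ℝ | Module.End.HasEigenvalue (A v) l}) ∧
      ∀ N : Set E, IsMontiel r N → ¬ Set.range Φ ⊆ N :=
  main hE (by omega) hr
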